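import Pool.Agent.Results.MP_377342_al.SolvableExtension

/-!
# MP_64d585_al: semidefinite extensions for solvable Lie algebras of quaternion matrices,
nonstandard involution
-/

set_option autoImplicit false
set_option maxHeartbeats 400000

namespace Pool.Agent.Results.MP_64d585_al.SolvableExtensionPhi

open Quaternion MulOpposite Matrix

attribute [local instance 100] LieRing.ofAssociativeRing

/-- Square quaternion matrices. -/
abbrev Mat (n : ℕ) : Type := Matrix (Fin n) (Fin n) ℍ[ℝ]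

/-- The right quaternionic subspaces of the column space. -/
abbrev Sub (n : ℕ) : Type := Submodule ℍ[ℝ]ᵐᵒᵖ (Fin n → ℍ[ℝ])

/-- A nonstandard involution of the quaternions. -/
def Nonstd (φ : ℍ[ℝ] →ₗ[ℝ] ℍ[ℝ]) : Prop :=
  (∀ x y, φ (x * y) = φ y * φ x) ∧ (∀ x, φ (φ x) = x) ∧ ∃ x, φ x ≠ star x

variable {n : ℕ}

/-- The transpose with `φ` applied to every entry. -/
noncomputable def adj (φ : ℍ[ℝ] →ₗ[ℝ] ℍ[ℝ]) (X : Mat n) : Mat n := (X.map φ)ᵀ

/-- The quaternion `x_φ G y`. -/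
noncomputable def ip (φ : ℍ[ℝ] →ₗ[ℝ] ℍ[ℝ]) (G : Mat n) (x y : Fin n → ℍ[ℝ]) : ℍ[ℝ] :=
  (fun i => φ (x i)) ⬝ᵥ (G *ᵥ y)

/-- `M` is invariant under all matrices of the set `S`. -/
def Invariant (S : Set (Mat n)) (M : Sub n) : Prop := ∀ A ∈ S, ∀ x ∈ M, A *ᵥ x ∈ M

/-- `M` is `(G, φ)`-neutral: `y_φ G x = 0` for all `x, y ∈ M`. -/
def Neutral (φ : ℍ[ℝ] →ₗ[ℝ] ℍ[ℝ]) (G : Mat n) (M : Sub n) : Prop :=
  ∀ x ∈ M, ∀ y ∈ M, ip φ G y x = 0

/-- `M` is `(G, φ)`-nonnegative: `β⁻¹ x_φ G x` is a nonnegative real number on `M`. -/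
def Nonneg (φ : ℍ[ℝ] →ₗ[ℝ] ℍ[ℝ]) (β : ℍ[ℝ]) (G : Mat n) (M : Sub n) : Prop :=
  ∀ x ∈ M, ∃ r : ℝ, 0 ≤ r ∧ β⁻¹ * ip φ G x x = (r : ℍ[ℝ])

/-- `M` is `(G, φ)`-nonpositive: `β⁻¹ x_φ G x` is a nonpositive real number on `M`. -/
def Nonpos (φ : ℍ[ℝ] →ₗ[ℝ] ℍ[ℝ]) (β : ℍ[ℝ]) (G : Mat n) (M : Sub n) : Prop :=
  ∀ x ∈ M, ∃ r : ℝ, r ≤ 0 ∧ β⁻¹ * ip φ G x x = (r : ℍ[ℝ])

/-- `L` contains `N`, is invariant under `S`, and is maximal among all the right subspaces
with the property `P`. -/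
def MaxExt (S : Set (Mat n)) (P : Sub n → Prop) (N L : Sub n) : Prop :=
  N ≤ L ∧ Invariant S L ∧ P L ∧ ∀ M : Sub n, L ≤ M → P M → M = L

/-- The set `S` of matrices is closed under adjoints for the form `x_φ G y`. -/
def AdjClosed (φ : ℍ[ℝ] →ₗ[ℝ] ℍ[ℝ]) (G : Mat n) (S : Set (Mat n)) : Prop :=
  ∀ A ∈ S, ∃ A' ∈ S, adj φ A * G = G * A'

/-- Every `S`-invariant `(G, φ)`-nonnegative (nonpositive) subspace lies in an `S`-invariant
maximal `(G, φ)`-nonnegative (nonpositive) subspace. -/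
def Extends (φ : ℍ[ℝ] →ₗ[ℝ] ℍ[ℝ]) (β : ℍ[ℝ]) (G : Mat n) (S : Set (Mat n)) : Prop :=
  (∀ N : Sub n, Invariant S N → Nonneg φ β G N → ∃ L, MaxExt S (Nonneg φ β G) N L) ∧
    ∀ N : Sub n, Invariant S N → Nonpos φ β G N → ∃ L, MaxExt S (Nonpos φ β G) N L

theorem phi_eq (φ : ℍ[ℝ] →ₗ[ℝ] ℍ[ℝ]) (hm : ∀ x y, φ (x * y) = φ y * φ x) (hi : ∀ x, φ (φ x) = x)
    (hne : ∃ x, φ x ≠ star x) (β : ℍ[ℝ]) (hβ : φ β = -β) (hn : ‖β‖ = 1) :
    β * β = -1 ∧ star β = -β ∧ ∀ q, star q * β = β * φ q := by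
  have h1 : φ 1 = 1 := by
    have := hm (φ 1) 1
    rw [mul_one, hi, mul_one] at this
    exact this.symm
  have hr : ∀ r : ℝ, φ r = r := fun r => by
    rw [show (r : ℍ[ℝ]) = r • (1 : ℍ[ℝ]) by rw [← coe_mul_eq_smul, mul_one], map_smul, h1]
  have hn' : β.re ^ 2 + β.imI ^ 2 + β.imJ ^ 2 + β.imK ^ 2 = 1 := by
    rw [← normSq_def', normSq_eq_norm_mul_self, hn, mul_one]
  have hb0 : β ≠ 0 := fun h => by simp [h] at hn
  have hre : β.re = 0 := by
    have e : β * β = (2 * β.re) • β - 1 := by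
      apply Quaternion.ext <;> simp <;> linarith
    have e2 := congrArg φ e
    rw [hm, hβ, neg_mul_neg, map_sub, map_smul, hβ, h1, e, sub_left_inj, smul_neg, eq_neg_iff_add_eq_zero,
      ← add_smul, smul_eq_zero] at e2
    have := e2.resolve_right hb0
    linarith
  have hbb : β * β = -1 := by
    apply Quaternion.ext <;> simp [hre] <;> nlinarith
  have hsb : star β = -β := star_eq_neg.2 hre
  refine ⟨hbb, hsb, ?_⟩
  have comm : ∀ z : ℍ[ℝ], z * β = β * z → φ z = star z := by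
    intro z hz
    have a1 := congrArg (fun q : ℍ[ℝ] => q.imI) hz
    have a2 := congrArg (fun q : ℍ[ℝ] => q.imJ) hz
    have a3 := congrArg (fun q : ℍ[ℝ] => q.imK) hz
    simp [hre] at a1 a2 a3 hn'
    have e : z = (z.re : ℍ[ℝ]) + (z.imI * β.imI + z.imJ * β.imJ + z.imK * β.imK) • β := by
      apply Quaternion.ext <;> simp [hre]
      · linear_combination (-z.imI) * hn' + (β.imJ / 2) * a3 - (β.imK / 2) * a2
      · linear_combination (-z.imJ) * hn' + (β.imK / 2) * a1 - (β.imI / 2) * a3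
      · linear_combination (-z.imK) * hn' + (β.imI / 2) * a2 - (β.imJ / 2) * a1
    rw [e, map_add, map_smul, hr, hβ, star_add, Quaternion.star_smul, hsb, star_coe]
  have anti : ∀ w : ℍ[ℝ], w * β = -(β * w) → star w = -w := by
    intro w hw
    have a1 := congrArg (fun q : ℍ[ℝ] => q.imI) hw
    have a2 := congrArg (fun q : ℍ[ℝ] => q.imJ) hw
    have a3 := congrArg (fun q : ℍ[ℝ] => q.imK) hw
    simp [hre] at a1 a2 a3 hn'
    rw [star_eq_neg]
    linear_combination (-w.re) * hn' + (β.imI / 2) * a1 + (β.imJ / 2) * a2 + (β.imK / 2) * a3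
  have dec : ∀ q : ℍ[ℝ], ∃ u w, q = u + w ∧ u * β = β * u ∧ w * β = -(β * w) := by
    intro q
    have e1 : β * q * β * β = -(β * q) := by rw [mul_assoc, hbb, mul_neg_one]
    have e2 : β * (β * q * β) = -(q * β) := by
      rw [← mul_assoc, ← mul_assoc, hbb, neg_one_mul, neg_mul]
    refine ⟨(1 / 2 : ℝ) • (q - β * q * β), (1 / 2 : ℝ) • (q + β * q * β), by module, ?_, ?_⟩
    · rw [smul_mul_assoc, mul_smul_comm, sub_mul, mul_sub, e1, e2]; module
    · rw [smul_mul_assoc, mul_smul_comm, add_mul, mul_add, e1, e2]; module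
  have fix : ∀ w : ℍ[ℝ], w * β = -(β * w) → φ w = w := by
    by_cases c : ∃ s : ℍ[ℝ], s ≠ 0 ∧ s * β = -(β * s) ∧ φ s = s
    · obtain ⟨s, hs0, hs, hφ⟩ := c
      intro w hw
      have hz : s * w * β = β * (s * w) := by
        rw [mul_assoc, hw, mul_neg, ← mul_assoc, hs, neg_mul, neg_neg, mul_assoc]
      have := comm _ hz
      rw [hm, hφ, star_mul, anti w hw, anti s hs, neg_mul_neg] at this
      exact mul_right_cancel₀ hs0 this
    · exfalso
      obtain ⟨q, hq⟩ := hne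
      obtain ⟨u, w, rfl, hu, hw⟩ := dec q
      have hw' := congrArg φ hw
      rw [map_neg, hm, hm, hβ, neg_mul, mul_neg, neg_neg] at hw'
      have : w + φ w = 0 := by
        by_contra h0
        exact c ⟨_, h0, by rw [add_mul, mul_add, hw, ← hw', neg_add],
          by rw [map_add, hi, add_comm]⟩
      refine hq ?_
      rw [map_add, star_add, comm u hu, anti w hw, eq_neg_of_add_eq_zero_right this]
  intro q
  obtain ⟨u, w, rfl, hu, hw⟩ := dec q
  have hu' := congrArg star hu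
  rw [star_mul, star_mul, hsb, neg_mul, mul_neg, neg_inj] at hu'
  rw [map_add, star_add, comm u hu, fix w hw, anti w hw, add_mul, mul_add, hu', neg_mul, hw, neg_neg]

/-- left multiplication of all entries by `β` -/
noncomputable def lm (β : ℍ[ℝ]) (G : Mat n) : Mat n := fun i j => β * G i j

theorem lm_mulVec (β : ℍ[ℝ]) (G : Mat n) (y : Fin n → ℍ[ℝ]) (i : Fin n) :
    (lm β G *ᵥ y) i = β * (G *ᵥ y) i := by
  simp only [mulVec, dotProduct, lm, Finset.mul_sum, mul_assoc]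

theorem form_eq {φ : ℍ[ℝ] →ₗ[ℝ] ℍ[ℝ]} {β : ℍ[ℝ]} (hbb : β * β = -1)
    (hφ : ∀ q, star q * β = β * φ q) (G : Mat n) (x y : Fin n → ℍ[ℝ]) :
    star x ⬝ᵥ (-(lm β G) *ᵥ y) = β⁻¹ * ip φ G x y := by
  have hb : β⁻¹ = -β := inv_eq_of_mul_eq_one_right (by rw [mul_neg, hbb, neg_neg])
  rw [neg_mulVec, dotProduct_neg, hb, neg_mul]
  congr 1
  unfold ip
  simp only [dotProduct, Finset.mul_sum]
  refine Finset.sum_congr rfl fun i _ => ?_
  rw [lm_mulVec, Pi.star_apply, ← mul_assoc, hφ, mul_assoc]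

open Pool.Agent.Results.MP_377342_al in
theorem transfer {φ : ℍ[ℝ] →ₗ[ℝ] ℍ[ℝ]} {β : ℍ[ℝ]} (hbb : β * β = -1)
    (hφ : ∀ q, star q * β = β * φ q) (G : Mat n) (S : Set (Mat n))
    (h : SolvableExtension.Extends (-(lm β G)) S) : Extends φ β G S := by
  have h1 : ∀ M : Sub n, SolvableExtension.Nonneg (-(lm β G)) M ↔ Nonneg φ β G M := by
    intro M
    unfold SolvableExtension.Nonneg Nonneg
    simp only [form_eq hbb hφ]
  have h2 : ∀ M : Sub n, SolvableExtension.Nonpos (-(lm β G)) M ↔ Nonpos φ β G M := by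
    intro M
    unfold SolvableExtension.Nonpos Nonpos
    simp only [form_eq hbb hφ]
  refine ⟨fun N hN hN' => ?_, fun N hN hN' => ?_⟩
  · obtain ⟨L, a, b, c, d⟩ := h.1 N hN ((h1 N).2 hN')
    exact ⟨L, a, b, (h1 L).1 c, fun M hM hM' => d M hM ((h1 M).2 hM')⟩
  · obtain ⟨L, a, b, c, d⟩ := h.2 N hN ((h2 N).2 hN')
    exact ⟨L, a, b, (h2 L).1 c, fun M hM hM' => d M hM ((h2 M).2 hM')⟩

theorem herm {φ : ℍ[ℝ] →ₗ[ℝ] ℍ[ℝ]} {β : ℍ[ℝ]} (hsb : star β = -β)
    (hφ : ∀ q, star q * β = β * φ q) (G : Mat n) (hG : adj φ G = -G) :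
    (-(lm β G))ᴴ = -(lm β G) := by
  rw [conjTranspose_neg]
  congr 1
  ext1 i j
  have h := congrFun (congrFun hG i) j
  rw [conjTranspose_apply]
  change star (β * G j i) = β * G i j
  have h' : φ (G j i) = -G i j := h
  rw [star_mul, hsb, mul_neg, hφ, h', mul_neg, neg_neg]

theorem adjc {φ : ℍ[ℝ] →ₗ[ℝ] ℍ[ℝ]} {β : ℍ[ℝ]}
    (hφ : ∀ q, star q * β = β * φ q) (G A A' : Mat n) (h : adj φ A * G = G * A') :
    Aᴴ * (-(lm β G)) = -(lm β G) * A' := by
  rw [Matrix.mul_neg, Matrix.neg_mul]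
  congr 1
  ext1 i j
  have h' := congrFun (congrFun h i) j
  simp only [Matrix.mul_apply] at h' ⊢
  have e1 : ∀ k, Aᴴ i k * lm β G k j = β * (adj φ A i k * G k j) := by
    intro k
    rw [conjTranspose_apply]
    change star (A k i) * (β * G k j) = β * (φ (A k i) * G k j)
    rw [← mul_assoc, hφ, mul_assoc]
  have e2 : ∀ k, lm β G i k * A' k j = β * (G i k * A' k j) := by
    intro k
    change β * G i k * A' k j = _
    rw [mul_assoc]
  simp only [e1, e2, ← Finset.mul_sum, h']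

/-- (1) For a nonstandard involution `φ`, a `φ`-skewhermitian `G` and a solvable real Lie algebra
`𝔤` of quaternion matrices closed under `(G, φ)`-adjoints, each `𝔤`-invariant
`(G, φ)`-nonnegative (nonpositive) subspace lies in a `𝔤`-invariant maximal
`(G, φ)`-nonnegative (nonpositive) one. (2) The same for every commuting set closed under
`(G, φ)`-adjoints. (3) The same for one `(H, φ)`-skewsymmetric `A` and `G = H A`. (4) Q1. -/
theorem result (φ : ℍ[ℝ] →ₗ[ℝ] ℍ[ℝ]) (hφ : Nonstd φ) (β : ℍ[ℝ]) (hβ : φ β = -β) (hβ1 : ‖β‖ = 1)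
    (n : ℕ) :
    (∀ G : Mat n, adj φ G = -G → ∀ 𝔤 : LieSubalgebra ℝ (Mat n), LieAlgebra.IsSolvable 𝔤 →
      AdjClosed φ G (𝔤 : Set (Mat n)) → Extends φ β G (𝔤 : Set (Mat n))) ∧
    (∀ G : Mat n, adj φ G = -G → ∀ S : Set (Mat n), (∀ A ∈ S, ∀ B ∈ S, A * B = B * A) →
      AdjClosed φ G S → Extends φ β G S) ∧
    (∀ H A : Mat n, adj φ H = H → H * A = -(adj φ A * H) → Extends φ β (H * A) {A}) ∧
    ∀ H A : Mat n, adj φ H = H → H * A = -(adj φ A * H) → ∀ N : Sub n, Invariant {A} N →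
      Neutral φ (H * A) N → (∃ L, MaxExt {A} (Nonneg φ β (H * A)) N L) ∧
        ∃ L, MaxExt {A} (Nonpos φ β (H * A)) N L := by
  obtain ⟨hm, hi, hne⟩ := hφ
  obtain ⟨hbb, hsb, hφ⟩ := phi_eq φ hm hi hne β hβ hβ1
  have h1 : ∀ G : Mat n, adj φ G = -G → ∀ 𝔤 : LieSubalgebra ℝ (Mat n), LieAlgebra.IsSolvable 𝔤 →
      AdjClosed φ G (𝔤 : Set (Mat n)) → Extends φ β G (𝔤 : Set (Mat n)) := by
    intro G hG 𝔤 h𝔤 hadj
    refine transfer hbb hφ G _ (Pool.Agent.Results.MP_377342_al.SolvableExtension.extends_of_solvable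
      (herm hsb hφ G hG) 𝔤 h𝔤 fun A hA => ?_)
    obtain ⟨A', hA', he⟩ := hadj A hA
    exact ⟨A', hA', adjc hφ G A A' he⟩
  have h2 : ∀ G : Mat n, adj φ G = -G → ∀ S : Set (Mat n), (∀ A ∈ S, ∀ B ∈ S, A * B = B * A) →
      AdjClosed φ G S → Extends φ β G S := by
    intro G hG S hS hadj
    refine transfer hbb hφ G _ (Pool.Agent.Results.MP_377342_al.SolvableExtension.extends_of_commuting
      (herm hsb hφ G hG) S hS fun A hA => ?_)
    obtain ⟨A', hA', he⟩ := hadj A hA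
    exact ⟨A', hA', adjc hφ G A A' he⟩
  have h3 : ∀ H A : Mat n, adj φ H = H → H * A = -(adj φ A * H) → Extends φ β (H * A) {A} := by
    intro H A hH hA
    have hmul : ∀ X Y : Mat n, adj φ (X * Y) = adj φ Y * adj φ X := by
      intro X Y
      ext1 i j
      unfold adj
      simp only [Matrix.mul_apply, Matrix.transpose_apply, Matrix.map_apply, map_sum, hm]
    have hneg : ∀ X : Mat n, adj φ (-X) = -adj φ X := by
      intro X
      ext1 i j
      exact map_neg φ (X j i)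
    have hG : adj φ (H * A) = -(H * A) := by
      rw [hmul, hH, hA, neg_neg]
    have h : adj φ A * (H * A) = H * A * (-A) := by
      rw [← mul_assoc, show adj φ A * H = -(H * A) by rw [hA, neg_neg], Matrix.neg_mul,
        Matrix.mul_neg]
    obtain ⟨a1, a2⟩ := h2 (H * A) hG {A, -A} (by
      rintro X (rfl | rfl) Y (rfl | rfl) <;> simp)
      (by
        rintro X (rfl | rfl)
        · exact ⟨-X, by simp, h⟩
        · exact ⟨A, by simp, by rw [hneg, Matrix.neg_mul, h]; simp⟩)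
    have hinv : ∀ M : Sub n, Invariant {A} M ↔ Invariant {A, -A} M := by
      intro M
      constructor
      · rintro h X (rfl | rfl) x hx
        · exact h X rfl x hx
        · rw [neg_mulVec]
          exact M.neg_mem (h A rfl x hx)
      · rintro h X rfl
        exact h X (by simp)
    refine ⟨fun N hN hN' => ?_, fun N hN hN' => ?_⟩
    · obtain ⟨L, a, b, c⟩ := a1 N ((hinv N).1 hN) hN'
      exact ⟨L, a, (hinv L).2 b, c⟩
    · obtain ⟨L, a, b, c⟩ := a2 N ((hinv N).1 hN) hN'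
      exact ⟨L, a, (hinv L).2 b, c⟩
  refine ⟨h1, h2, h3, ?_⟩
  intro H A hH hA N hN hneu
  exact ⟨(h3 H A hH hA).1 N hN fun x hx => ⟨0, le_rfl, by rw [hneu x hx x hx]; simp⟩,
    (h3 H A hH hA).2 N hN fun x hx => ⟨0, le_rfl, by rw [hneu x hx x hx]; simp⟩⟩

end Pool.Agent.Results.MP_64d585_al.SolvableExtensionPhi
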